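import Pool.Agent.H200C.Stm3
import Pool.Agent.Q195.PK.ExpK

set_option autoImplicit false

/-! Job CH-EXPA (CH30) of project CH (helper200), by helper251. -/

namespace Pool.Agent.Q251.CH

open Finset Pool.Agent.H200C Pool.Agent.TH176.Nag Pool.Agent.TH603.Sur Pool.Agent.TH2.NU
open Pool.Agent.TH641.UM Pool.Agent.Y205.FW Pool.Agent.Y205.MD Pool.Agent.H200W Pool.Agent.H200P
open Pool.Agent.H932R3 Pool.Agent.W609.CR

theorem expA : S_ExpA := by
  classical
  intro hWin hC hC2 n d w hP
  obtain ⟨p, A, E, m, μ, s, hpA, hE, hE1, hμ, hAm, hout, hs, hd, hch, hlast⟩ := hP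
  apply Pool.Agent.Q195.PK.exp_of_crk (insert p A)
  set W : Multiset ℕ := A.val.map w with hW
  set B := (univ \ insert p A).filter (fun i => 1 ≤ w i) with hB
  set V : Multiset ℕ := B.val.map w with hV
  have hK : (insert p A).val.map w = {w p} + W := by
    rw [Finset.insert_val_of_notMem hpA, Multiset.map_cons, hW, Multiset.singleton_add]
  rw [hK]
  set K : Multiset ℕ := {w p} + W with hKd
  have hwin : WinAb (256 * ((μ : ℝ) + 1)) K d := by
    have h1 : WinAb (256 * ((μ + 1 : ℕ) : ℝ)) ({w p} + W) d := by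
      refine hWin (t := μ + 1) (m := m) (E := E) (by omega) ⟨hE, hE1, ?_, ?_, ?_⟩
      · intro x hx
        rw [hW, Multiset.mem_map] at hx
        obtain ⟨i, hi, rfl⟩ := hx
        exact hAm i hi
      · have h2 : 1 ≤ E 0 := hE1 0
        have h3 : 2 ^ 18 * (μ + 1) + 2 ^ 8 * E 0 * (2 ^ 18 * (μ + 1)) ≤
            2 ^ 27 * (μ + 1) * E 0 := by
          have h4 : 2 ^ 18 * (μ + 1) * 1 ≤ 2 ^ 18 * (μ + 1) * E 0 := Nat.mul_le_mul_left _ h2
          have h5 : 2 ^ 8 * E 0 * (2 ^ 18 * (μ + 1)) = 2 ^ 26 * ((μ + 1) * E 0) := by ring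
          have h6 : 2 ^ 18 * (μ + 1) * E 0 = 2 ^ 18 * ((μ + 1) * E 0) := by ring
          have h7 : 2 ^ 27 * (μ + 1) * E 0 = 2 ^ 27 * ((μ + 1) * E 0) := by ring
          rw [h5, h7]
          rw [h6, mul_one] at h4
          have h8 : 2 ^ 18 * ((μ + 1) * E 0) + 2 ^ 26 * ((μ + 1) * E 0) ≤
              2 ^ 27 * ((μ + 1) * E 0) := by
            generalize (μ + 1) * E 0 = z
            omega
          omega
        omega
      · intro k hk hk2
        have h2 := hch k hk hk2
        have h3 : (up W k).sum = ∑ i ∈ A, (w i - k) := by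
          have h6 : (up W k).sum = ∑ i ∈ A.filter (fun i => k < w i), (w i - k) := by
            rw [hW, up, Multiset.filter_map, Multiset.map_map]
            rfl
          rw [h6]
          apply Finset.sum_filter_of_ne
          intro i _ hi
          omega
        have h4 : (W.filter fun x => k < x ∧ x ≤ k + 256 * (2 ^ 18 * (μ + 1))).card =
            (A.filter fun i => k < w i ∧ w i ≤ k + 2 ^ 26 * (μ + 1)).card := by
          have hx : 256 * (2 ^ 18 * (μ + 1)) = 2 ^ 26 * (μ + 1) := by ring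
          rw [hx, hW, Multiset.filter_map, Multiset.card_map, Finset.card_def, Finset.filter_val]
          exact congrArg Multiset.card (Multiset.filter_congr fun i _ => Iff.rfl)
        rw [h3, h4]
        have h5 : 2 ^ 13 * (2 ^ 18 * (μ + 1)) * E k = 2 ^ 31 * (μ + 1) * E k := by ring
        rw [h5]
        exact h2
    have h2 : ((μ + 1 : ℕ) : ℝ) = (μ : ℝ) + 1 := by push_cast; ring
    rwa [h2] at h1
  have c5 : ∀ v ∈ V, 1 ≤ v ∧ v ≤ μ := by
    intro v hv
    rw [hV, Multiset.mem_map] at hv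
    obtain ⟨i, hi, rfl⟩ := hv
    have hi' : i ∈ B := hi
    rw [hB, Finset.mem_filter, Finset.mem_sdiff, Finset.mem_insert, not_or] at hi'
    exact ⟨hi'.2, hout i hi'.1.2.1 hi'.1.2.2⟩
  have c6 : V.toFinset.card ≤ s := by
    refine le_trans (Finset.card_le_card ?_) hs
    intro x hx
    rw [Multiset.mem_toFinset, hV, Multiset.mem_map] at hx
    obtain ⟨i, hi, rfl⟩ := hx
    have hi' : i ∈ B := hi
    rw [hB, Finset.mem_filter] at hi'
    exact Finset.mem_image_of_mem _ hi'.1
  rcases hlast with hl | hl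
  · apply hC K V hμ hwin c5
    have h1 : (V.map fun v => v ^ 2).sum = ∑ i ∈ univ \ insert p A, w i ^ 2 := by
      have h2 : (V.map fun v => v ^ 2).sum = ∑ i ∈ B, w i ^ 2 := by
        rw [hV, Multiset.map_map]
        rfl
      rw [h2, hB]
      apply Finset.sum_filter_of_ne
      intro i _ hi
      by_contra h3
      have : w i = 0 := by omega
      rw [this] at hi
      exact hi rfl
    rw [h1]
    refine le_trans ?_ hl
    exact Nat.mul_le_mul_right _ (Nat.mul_le_mul_left _ c6)
  · apply hC2 K V hμ hwin c5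
    have h1 : 2 * TH2.NU.condM K = ∑ i ∈ insert p A, w i * (w i + 1) := by
      rw [← hK]
      unfold TH2.NU.condM
      have h2 : (((insert p A).val.map w).map fun a => (a + 1).choose 2).sum =
          ∑ i ∈ insert p A, (w i + 1).choose 2 := by
        rw [Multiset.map_map]
        rfl
      rw [h2, Finset.mul_sum]
      exact Finset.sum_congr rfl fun i _ => Pool.Agent.Q195.PK.two_choose_nat (w i)
    have h3 := p_card (M1 := 0) (M2 := 0) (M3 := 0) (d := d) le_rfl le_rfl (by omega)
    have h4 : 2 ^ 29 * (V.toFinset.card + 1) * μ ^ 2 ≤ 2 ^ 29 * (s + 1) * μ ^ 2 :=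
      Nat.mul_le_mul_right _ (Nat.mul_le_mul_left _ (by omega))
    have h5 : 2 ^ 30 * (s + 1) * μ ^ 2 = 2 * (2 ^ 29 * (s + 1) * μ ^ 2) := by ring
    omega

end Pool.Agent.Q251.CH
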